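import Pool.Agent.Helper14.CV.StD

/-!
# Project CV, module Sur: solving the inhomogeneous relation
-/

set_option autoImplicit false

namespace Pool.Agent.Helper81.CV

open Pool.Agent.Helper14.CV

private lemma self_add {q q' : ℕ} (F : Fn q q') : F + F = 0 := by
  funext x y
  exact CharTwo.add_self_eq_zero (F x y)

private lemma decomp (hLow0 : StLow0) (hBb : StBb) (r s : ℕ) (e : ℤ) (E : Fn (2 ^ r) (2 ^ s))
    (he : e < 2 ^ r + 2 ^ s - 2) (hE : E ∈ Wd e) :
    ∃ U V : Fn (2 ^ r) (2 ^ s), U ∈ Wd (e + 1) ∧ V ∈ Wd (e + 1) ∧ dx U + dy V = E := by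
  obtain ⟨_, _, _, hmono, _⟩ := hLow0 r s
  obtain ⟨h1, h2, h3, _, _, h6⟩ := hBb r s
  set c : ℕ → ℕ → ZMod 2 := fun i j =>
    ((dx ^ i * dy ^ j : Module.End (ZMod 2) (Fn (2 ^ r) (2 ^ s))) E) 0 0 with hc
  have hc0 : ∀ i j : ℕ, e < (i : ℤ) + j → c i j = 0 := by
    intro i j hij
    have : ((dx ^ i * dy ^ j : Module.End (ZMod 2) (Fn (2 ^ r) (2 ^ s))) E) = 0 := hE i j hij
    rw [hc]
    simp only [this]
    rfl
  have hj : ∀ i j : ℕ, i < 2 ^ r → (i : ℤ) + j ≤ e → ¬ (i + 1 < 2 ^ r) → j + 1 < 2 ^ s := by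
    intro i j hi hij hi1
    have h7 : i + 1 = 2 ^ r := by omega
    have h8 : (i : ℤ) + 1 = 2 ^ r := by exact_mod_cast h7
    have h9 : (j : ℤ) + 1 < 2 ^ s := by linarith
    exact_mod_cast h9
  refine ⟨∑ i ∈ Finset.range (2 ^ r), ∑ j ∈ Finset.range (2 ^ s),
      (if i + 1 < 2 ^ r then c i j • bb (i + 1) j else 0),
    ∑ i ∈ Finset.range (2 ^ r), ∑ j ∈ Finset.range (2 ^ s),
      (if i + 1 < 2 ^ r then 0 else c i j • bb i (j + 1)), ?_, ?_, ?_⟩
  · refine Submodule.sum_mem _ fun i hi => Submodule.sum_mem _ fun j hj => ?_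
    rw [Finset.mem_range] at hi hj
    split_ifs with h
    · by_cases hij : (i : ℤ) + j ≤ e
      · refine Submodule.smul_mem _ _ (hmono _ _ ?_ (h1 (i + 1) j h hj))
        push_cast
        linarith
      · rw [hc0 i j (not_le.1 hij), zero_smul]
        exact Submodule.zero_mem _
    · exact Submodule.zero_mem _
  · refine Submodule.sum_mem _ fun i hi => Submodule.sum_mem _ fun j _ => ?_
    rw [Finset.mem_range] at hi
    split_ifs with h
    · exact Submodule.zero_mem _
    · by_cases hij : (i : ℤ) + j ≤ e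
      · refine Submodule.smul_mem _ _ (hmono _ _ ?_ (h1 i (j + 1) hi (hj i j hi hij h)))
        push_cast
        linarith
      · rw [hc0 i j (not_le.1 hij), zero_smul]
        exact Submodule.zero_mem _
  · refine Eq.trans ?_ (h6 E).symm
    rw [map_sum, map_sum, ← Finset.sum_add_distrib]
    refine Finset.sum_congr rfl fun i hi => ?_
    rw [map_sum, map_sum, ← Finset.sum_add_distrib]
    refine Finset.sum_congr rfl fun j hj' => ?_
    rw [Finset.mem_range] at hi hj'
    have hcc : ((dx ^ i * dy ^ j : Module.End (ZMod 2) (Fn (2 ^ r) (2 ^ s))) E) 0 0 = c i j := rfl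
    rw [hcc]
    by_cases h : i + 1 < 2 ^ r
    · rw [if_pos h, if_pos h, map_smul, map_zero, add_zero, h2 i j h hj']
    · rw [if_neg h, if_neg h, map_smul, map_zero, zero_add]
      by_cases hij : (i : ℤ) + j ≤ e
      · rw [h3 i j hi (hj i j hi hij h)]
      · rw [hc0 i j (not_le.1 hij), zero_smul, zero_smul]

/-- `opC' + 1 + dx + dy` lowers by `2` -/
private lemma low_C (hLow0 : StLow0) (hGrp : StGrp) (hLowA : StLowA) (r s : ℕ) (d : ℤ)
    (H : Fn (2 ^ r) (2 ^ s)) (hH : H ∈ Wd d) : opC' H + H + dx H + dy H ∈ Wd (d - 2) := by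
  obtain ⟨_, _, _, hmono, _, hdx, hdy, _⟩ := hLow0 r s
  obtain ⟨_, hBB, _, hB0, _⟩ := hGrp r s
  obtain ⟨hz, hA3, hB3, _⟩ := hLowA r s
  obtain ⟨_, hB1, _, hBl, _⟩ := hz (-1)
  set G : Fn (2 ^ r) (2 ^ s) := opB (-1) H with hG
  have hGm : G ∈ Wd d := by
    have := hBl d H hH
    rwa [sub_zero] at this
  have e1 : opA 1 G + G + dx G ∈ Wd (d - 2) :=
    hmono _ _ (by linarith) (hA3 d G hGm)
  have e2 : dx (G + H) ∈ Wd (d - 2) := by
    have h4 : G + H ∈ Wd (d - 1) := hB1 d H hH
    have h5 := hdx (d - 1) _ h4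
    have h6 : d - 1 - 1 = d - 2 := by ring
    rwa [h6] at h5
  have e3 : G + H + dy H ∈ Wd (d - 2) := by
    have h4 : opB 1 H + H + dy H ∈ Wd (d - 3) := hB3 d H hH
    have h5 := hBl _ _ h4
    rw [sub_zero, map_add, map_add] at h5
    have h6 : opB (-1) (opB 1 H) = H := by
      have h7 := hBB (-1) 1
      rw [show (-1 : ℤ) + 1 = 0 from by norm_num, hB0] at h7
      have h8 := LinearMap.congr_fun h7 H
      exact h8
    rw [h6, ← hG] at h5
    have h9 : opB (-1) (dy H) + dy H ∈ Wd (d - 2) := by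
      have h10 := hB1 _ _ (hdy d H hH)
      have h11 : d - 1 - 1 = d - 2 := by ring
      rw [h11] at h10
      exact h10
    have h12 := Submodule.add_mem _ (hmono (d - 3) (d - 2) (by linarith) h5) h9
    have h13 : H + G + opB (-1) (dy H) + (opB (-1) (dy H) + dy H) = G + H + dy H := by
      have h14 := self_add (opB (-1) (dy H))
      calc H + G + opB (-1) (dy H) + (opB (-1) (dy H) + dy H)
          = (G + H + dy H) + (opB (-1) (dy H) + opB (-1) (dy H)) := by abel
        _ = G + H + dy H := by rw [h14, add_zero]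
    rwa [h13] at h12
  have e4 := Submodule.add_mem _ (Submodule.add_mem _ e1 e2) e3
  have e5 : opA 1 G + G + dx G + dx (G + H) + (G + H + dy H) = opC' H + H + dx H + dy H := by
    have h15 : opC' H = opA 1 G := rfl
    rw [h15, map_add]
    have h16 := self_add (G + dx G)
    calc opA 1 G + G + dx G + (dx G + dx H) + (G + H + dy H)
        = (opA 1 G + H + dx H + dy H) + (G + dx G + (G + dx G)) := by abel
      _ = opA 1 G + H + dx H + dy H := by rw [h16, add_zero]
  rwa [e5] at e4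

private lemma main_ind (hLow0 : StLow0) (hGrp : StGrp) (hLowA : StLowA) (hBb : StBb) (r s : ℕ) :
    ∀ (n : ℕ) (e : ℤ) (E : Fn (2 ^ r) (2 ^ s)), e < n → e < 2 ^ r + 2 ^ s - 2 → E ∈ Wd e →
    ∃ H1 H3 : Fn (2 ^ r) (2 ^ s), H1 ∈ Wd (e + 1) ∧ H3 ∈ Wd (e + 1) ∧
      opA 1 H1 + H1 + (opC' H3 + H3) = E := by
  have hL := hLow0 r s
  obtain ⟨_, _, _, hmono, _, _, _, _, _, _, _, _, hneg⟩ := hL
  intro n
  induction n with
  | zero =>
    intro e E he _ hE
    have h1 : E = 0 := hneg E (hmono e (-1) (by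
      have : e < 0 := by exact_mod_cast he
      omega) hE)
    refine ⟨0, 0, Submodule.zero_mem _, Submodule.zero_mem _, ?_⟩
    rw [h1, map_zero, map_zero]
    simp
  | succ n ih =>
    intro e E he he2 hE
    obtain ⟨U, V, hU, hV, hUV⟩ := decomp hLow0 hBb r s e E he2 hE
    obtain ⟨_, hA3, _⟩ := hLowA r s
    have hUVm : U + V ∈ Wd (e + 1) := Submodule.add_mem _ hU hV
    have h1 : opA 1 (U + V) + (U + V) + dx (U + V) ∈ Wd (e - 1) := by
      have := hA3 _ _ hUVm
      exact hmono _ _ (by linarith) this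
    have h2 : opC' V + V + dx V + dy V ∈ Wd (e - 1) := by
      have := low_C hLow0 hGrp hLowA r s _ V hV
      have h3 : e + 1 - 2 = e - 1 := by ring
      rwa [h3] at this
    have h3 := Submodule.add_mem _ h1 h2
    have h4 : opA 1 (U + V) + (U + V) + dx (U + V) + (opC' V + V + dx V + dy V) =
        opA 1 (U + V) + (U + V) + (opC' V + V) + E := by
      rw [← hUV, map_add dx U V]
      have h5 := self_add (dx V)
      calc opA 1 (U + V) + (U + V) + (dx U + dx V) + (opC' V + V + dx V + dy V)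
          = (opA 1 (U + V) + (U + V) + (opC' V + V) + (dx U + dy V)) + (dx V + dx V) := by abel
        _ = opA 1 (U + V) + (U + V) + (opC' V + V) + (dx U + dy V) := by rw [h5, add_zero]
    rw [h4] at h3
    obtain ⟨H1, H3, hH1, hH3, hR⟩ := ih (e - 1) _ (by push_cast at he; linarith) (by linarith) h3
    have h6 : e - 1 + 1 = e := by ring
    rw [h6] at hH1 hH3
    refine ⟨U + V + H1, V + H3, Submodule.add_mem _ hUVm (hmono _ _ (by linarith) hH1),
      Submodule.add_mem _ hV (hmono _ _ (by linarith) hH3), ?_⟩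
    rw [map_add (opA 1) (U + V) H1, map_add opC' V H3]
    have h7 : opA 1 (U + V) + opA 1 H1 + (U + V + H1) + (opC' V + opC' H3 + (V + H3)) =
        (opA 1 (U + V) + (U + V) + (opC' V + V)) + (opA 1 H1 + H1 + (opC' H3 + H3)) := by abel
    rw [h7, hR, ← add_assoc, self_add, zero_add]

theorem hSur (hLow0 : StLow0) (hGrp : StGrp) (hLowA : StLowA) (hBb : StBb) : StSur := by
  intro r s e E he hE
  exact main_ind hLow0 hGrp hLowA hBb r s (e + 1).toNat e E (by
    have := Int.self_le_toNat (e + 1)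
    linarith) he hE

end Pool.Agent.Helper81.CV
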